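import Mathlib

/-!
Characters of `(ℤ/m)^ℕ`, Haar measure, and the exponential integrability of the characters of a
quasi-independent set.
-/

set_option autoImplicit false

namespace Pool.Agent.U517.SG

open MeasureTheory Finset
open scoped ENNReal ComplexConjugate

variable (m : ℕ) [NeZero m]

/-- The Haar probability measure of the compact group `(ℤ/m)^ℕ`. -/
noncomputable def haar : Measure (ℕ → ZMod m) := Measure.addHaarMeasure ⊤

/-- The character `γ_n(t) = exp(2πi ∑_k t_k n_k / m)`. -/
noncomputable def chi (n : ℕ →₀ ZMod m) (t : ℕ → ZMod m) : ℂ :=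
  Complex.exp (2 * Real.pi * Complex.I *
    ((∑ k ∈ n.support, (t k).val * (n k).val : ℕ) : ℂ) / m)

instance : (haar m).IsAddHaarMeasure := by unfold haar; infer_instance

instance : IsProbabilityMeasure (haar m) := ⟨by
  unfold haar
  have := Measure.addHaarMeasure_self (K₀ := (⊤ : TopologicalSpace.PositiveCompacts (ℕ → ZMod m)))
  simpa using this⟩

variable {m}

lemma chi_eq (n : ℕ →₀ ZMod m) (t : ℕ → ZMod m) :
    chi m n t = ZMod.stdAddChar (∑ k ∈ n.support, t k * n k) := by
  have h : (∑ k ∈ n.support, t k * n k : ZMod m)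
      = (((∑ k ∈ n.support, (t k).val * (n k).val : ℕ) : ℤ) : ZMod m) := by
    push_cast
    refine Finset.sum_congr rfl fun k _ => ?_
    simp
  rw [h, ZMod.stdAddChar_coe]
  unfold chi
  push_cast
  rfl

lemma chi_eq' (n : ℕ →₀ ZMod m) (t : ℕ → ZMod m) (S : Finset ℕ) (hS : n.support ⊆ S) :
    chi m n t = ZMod.stdAddChar (∑ k ∈ S, t k * n k) := by
  rw [chi_eq]
  congr 1
  refine Finset.sum_subset hS fun k _ hk => ?_
  rw [Finsupp.notMem_support_iff] at hk
  rw [hk, mul_zero]

lemma chi_zero (t : ℕ → ZMod m) : chi m 0 t = 1 := by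
  rw [chi_eq]; simp

lemma chi_add (n n' : ℕ →₀ ZMod m) (t : ℕ → ZMod m) :
    chi m (n + n') t = chi m n t * chi m n' t := by
  have h1 := chi_eq' (n + n') t (n.support ∪ n'.support) Finsupp.support_add
  have h2 := chi_eq' n t (n.support ∪ n'.support) subset_union_left
  have h3 := chi_eq' n' t (n.support ∪ n'.support) subset_union_right
  rw [h1, h2, h3, ← AddChar.map_add_eq_mul, ← Finset.sum_add_distrib]
  congr 1
  refine Finset.sum_congr rfl fun k _ => ?_
  rw [Finsupp.add_apply, mul_add]

lemma chi_arg_add (n : ℕ →₀ ZMod m) (t s : ℕ → ZMod m) :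
    chi m n (t + s) = chi m n t * chi m n s := by
  rw [chi_eq, chi_eq, chi_eq, ← AddChar.map_add_eq_mul, ← Finset.sum_add_distrib]
  congr 1
  refine Finset.sum_congr rfl fun k _ => ?_
  rw [Pi.add_apply, add_mul]

lemma norm_chi (n : ℕ →₀ ZMod m) (t : ℕ → ZMod m) : ‖chi m n t‖ = 1 := by
  rw [chi_eq, AddChar.norm_apply]

lemma continuous_chi (n : ℕ →₀ ZMod m) : Continuous (chi m n) := by
  have h : chi m n = (fun x : ZMod m => (ZMod.stdAddChar x : ℂ)) ∘
      (fun t : ℕ → ZMod m => ∑ k ∈ n.support, t k * n k) := by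
    ext t; exact chi_eq n t
  rw [h]
  refine Continuous.comp continuous_of_discreteTopology ?_
  refine continuous_finsetSum _ fun k _ => ?_
  exact (continuous_of_discreteTopology (f := fun x : ZMod m => x * n k)).comp (continuous_apply k)

lemma chi_neg (n : ℕ →₀ ZMod m) (t : ℕ → ZMod m) : chi m (-n) t = conj (chi m n t) := by
  have h1 : chi m (-n) t * chi m n t = 1 := by
    rw [← chi_add, neg_add_cancel, chi_zero]
  have h2 : conj (chi m n t) * chi m n t = 1 := by
    rw [mul_comm, Complex.mul_conj, Complex.normSq_eq_norm_sq, norm_chi]; simp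
  have h3 : chi m n t ≠ 0 := by
    intro h
    have := norm_chi n t
    rw [h] at this; simp at this
  exact mul_right_cancel₀ h3 (h1.trans h2.symm)

lemma chi_sum {ι : Type*} (s : Finset ι) (g : ι → ℕ →₀ ZMod m) (t : ℕ → ZMod m) :
    chi m (∑ i ∈ s, g i) t = ∏ i ∈ s, chi m (g i) t := by
  classical
  induction s using Finset.induction_on with
  | empty => simp [chi_zero]
  | insert i s hi ih => rw [Finset.sum_insert hi, Finset.prod_insert hi, chi_add, ih]

/-- A nontrivial character has mean zero. -/
lemma integral_chi (n : ℕ →₀ ZMod m) (hn : n ≠ 0) : ∫ t, chi m n t ∂(haar m) = 0 := by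
  obtain ⟨k, hk⟩ := Finsupp.ne_iff.mp hn
  rw [Finsupp.zero_apply] at hk
  classical
  set s : ℕ → ZMod m := Pi.single k 1 with hs
  have h1 : chi m n s ≠ 1 := by
    rw [chi_eq]
    have : ∑ j ∈ n.support, s j * n j = n k := by
      rw [Finset.sum_eq_single k]
      · simp [hs]
      · intro j _ hj
        simp [hs, Pi.single_eq_of_ne hj]
      · intro h
        rw [Finsupp.notMem_support_iff] at h
        rw [h, mul_zero]
    rw [this]
    intro h
    apply hk
    apply ZMod.injective_stdAddChar
    rw [h, AddChar.map_zero_eq_one]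
  have h2 : ∫ t, chi m n (t + s) ∂(haar m) = ∫ t, chi m n t ∂(haar m) :=
    integral_add_right_eq_self (fun t => chi m n t) s
  have h3 : ∫ t, chi m n (t + s) ∂(haar m) = (∫ t, chi m n t ∂(haar m)) * chi m n s := by
    simp_rw [chi_arg_add]
    rw [integral_mul_const]
  rw [h3] at h2
  have h4 : (∫ t, chi m n t ∂(haar m)) * (chi m n s - 1) = 0 := by
    rw [mul_sub, h2, mul_one, sub_self]
  rcases mul_eq_zero.mp h4 with h | h
  · exact h
  · exact absurd (sub_eq_zero.mp h) h1

lemma integrable_of_continuous {E : Type*} [NormedAddCommGroup E] (f : (ℕ → ZMod m) → E)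
    (hf : Continuous f) : Integrable f (haar m) := by
  have h : IntegrableOn f Set.univ (haar m) := hf.continuousOn.integrableOn_compact isCompact_univ
  rwa [integrableOn_univ] at h

end Pool.Agent.U517.SG
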