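import Pool.Agent.U517.SG.Psi

/-!
A subgaussian set of nontrivial characters of `(ℤ/m)^ℕ` is a finite union of quasi-independent sets.
-/

set_option autoImplicit false

namespace Pool.Agent.U517.SG

open MeasureTheory Finset
open scoped ENNReal ComplexConjugate

variable {m : ℕ} [NeZero m]

/-- The annihilator of a finite subgroup has measure at least the inverse of its order. -/
lemma annihilator (M : AddSubgroup (ℕ →₀ ZMod m)) [Finite M] :
    1 ≤ (Nat.card M : ℝ≥0∞) * haar m {t | ∀ x ∈ M, chi m x t = 1} := by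
  classical
  let _ := Fintype.ofFinite M
  let Φ : (ℕ → ZMod m) → AddChar M ℂ := fun t =>
    { toFun := fun x => chi m (x : ℕ →₀ ZMod m) t
      map_zero_eq_one' := by simp [chi_zero]
      map_add_eq_mul' := fun x y => by simp [chi_add] }
  have hΦ : ∀ t (x : M), Φ t x = chi m (x : ℕ →₀ ZMod m) t := fun t x => rfl
  have hfib : ∀ ψ : AddChar M ℂ, haar m (Φ ⁻¹' {ψ}) ≤ haar m {t | ∀ x ∈ M, chi m x t = 1} := by
    intro ψ
    by_cases hne : (Φ ⁻¹' {ψ}).Nonempty
    · obtain ⟨s, hs⟩ := hne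
      have hs' : Φ s = ψ := hs
      have hsub : Φ ⁻¹' {ψ} ⊆ (fun t => t + (-s)) ⁻¹' {t | ∀ x ∈ M, chi m x t = 1} := by
        intro t ht x hx
        have ht' : Φ t = ψ := ht
        have h1 : Φ t ⟨x, hx⟩ = Φ s ⟨x, hx⟩ := by rw [ht', hs']
        rw [hΦ, hΦ] at h1
        have h2 : chi m x t = chi m x (t + -s) * chi m x s := by
          rw [← chi_arg_add]
          congr 1
          simp
        have h3 : chi m x s ≠ 0 := by
          intro h
          have := norm_chi x s
          rw [h] at this; simp at this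
        change chi m x (t + -s) = 1
        have h4 : chi m x (t + -s) * chi m x s = 1 * chi m x s := by
          rw [← h2, one_mul]; exact h1
        exact mul_right_cancel₀ h3 h4
      refine (measure_mono hsub).trans ?_
      rw [measure_preimage_add_right]
    · rw [Set.not_nonempty_iff_eq_empty] at hne
      rw [hne]; simp
  have huniv : (Set.univ : Set (ℕ → ZMod m)) = ⋃ ψ : AddChar M ℂ, Φ ⁻¹' {ψ} := by
    ext t
    simp
  have h1 : (1 : ℝ≥0∞) = haar m Set.univ := by rw [measure_univ]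
  rw [h1, huniv]
  refine (measure_iUnion_fintype_le _ _).trans ?_
  refine (Finset.sum_le_sum fun ψ _ => hfib ψ).trans ?_
  rw [Finset.sum_const, Finset.card_univ, AddChar.card_eq, nsmul_eq_mul, Nat.card_eq_fintype_card]

lemma closure_fin (A : Finset (ℕ →₀ ZMod m)) :
    Finite (AddSubgroup.closure (A : Set (ℕ →₀ ZMod m))) := by
  classical
  apply Pool.Agent.H337R3.Sid.closure_finite m (Nat.pos_of_ne_zero (NeZero.ne m)) A
  intro x _
  ext k
  simp

/-- The counting estimate. -/
lemma small_of_subgaussian (Λ : Set (ℕ →₀ ZMod m)) (h0 : (0 : ℕ →₀ ZMod m) ∉ Λ)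
    (h : Subgaussian m Λ) : ∃ K : ℕ, Pool.Agent.H337R3.Sid.Small K Λ := by
  classical
  obtain ⟨C, hC⟩ := h
  set C' := max C 1 with hC'
  have hC'1 : 1 ≤ C' := le_max_right _ _
  have hCC' : C ≤ C' := le_max_left C 1
  refine ⟨⌈12 * C' ^ 2⌉₊, ?_⟩
  intro A hA
  by_cases hAe : A.Nonempty
  swap
  · rw [Finset.not_nonempty_iff_eq_empty] at hAe
    subst hAe
    simp only [Finset.card_empty, pow_zero]
    apply Nat.one_le_pow
    have := closure_fin (∅ : Finset (ℕ →₀ ZMod m))
    exact Nat.card_pos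
  have hAcard : 0 < A.card := Finset.card_pos.mpr hAe
  set M := AddSubgroup.closure (A : Set (ℕ →₀ ZMod m)) with hM
  have hMfin : Finite M := closure_fin A
  set N := Nat.card M with hN
  have hN2 : 2 ≤ N := by
    obtain ⟨x, hx⟩ := hAe
    have hx0 : x ≠ 0 := by
      rintro rfl
      exact h0 (hA hx)
    have : Nontrivial M := ⟨⟨⟨x, AddSubgroup.subset_closure hx⟩, 0, fun h => hx0 (by
      have := congrArg Subtype.val h
      simpa using this)⟩⟩
    exact Finite.one_lt_card
  have hAr : (0 : ℝ) < A.card := by exact_mod_cast hAcard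
  have hNr : (2 : ℝ) ≤ N := by exact_mod_cast hN2
  -- the function
  have h1 := hC A (fun _ => 1) hA
  simp only [one_mul, norm_one, one_pow, Finset.sum_const, nsmul_eq_mul, mul_one] at h1
  set c := 2 * C' * Real.sqrt A.card with hc
  have hsq : 0 < Real.sqrt A.card := Real.sqrt_pos.mpr hAr
  have hc0 : 0 < c := by positivity
  have h2 : psi2 m (fun t => ∑ n ∈ A, chi m n t) < c := by
    refine h1.trans_lt ?_
    rw [hc]
    nlinarith
  -- nonempty set of admissible constants
  unfold psi2 at h2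
  have hne : {c : ℝ | 0 < c ∧ ∫⁻ t, ENNReal.ofReal (Real.exp (‖∑ n ∈ A, chi m n t‖ ^ 2 / c ^ 2))
      ∂(haar m) ≤ ENNReal.ofReal (Real.exp 1)}.Nonempty := by
    refine ⟨A.card, hAr, ?_⟩
    have : ∀ t : ℕ → ZMod m, ENNReal.ofReal (Real.exp (‖∑ n ∈ A, chi m n t‖ ^ 2 / (A.card:ℝ) ^ 2))
        ≤ ENNReal.ofReal (Real.exp 1) := by
      intro t
      apply ENNReal.ofReal_le_ofReal
      apply Real.exp_le_exp.mpr
      rw [div_le_one (by positivity)]
      apply pow_le_pow_left₀ (norm_nonneg _)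
      refine (norm_sum_le _ _).trans ?_
      simp [norm_chi]
    refine (lintegral_mono this).trans ?_
    simp
  obtain ⟨c₁, ⟨hc₁0, hc₁⟩, hc₁c⟩ := exists_lt_of_csInf_lt hne h2
  have h3 : ∫⁻ t, ENNReal.ofReal (Real.exp (‖∑ n ∈ A, chi m n t‖ ^ 2 / c ^ 2)) ∂(haar m)
      ≤ ENNReal.ofReal (Real.exp 1) := by
    refine (lintegral_mono fun t => ?_).trans hc₁
    apply ENNReal.ofReal_le_ofReal
    apply Real.exp_le_exp.mpr
    apply div_le_div_of_nonneg_left (by positivity) (by positivity)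
    exact pow_le_pow_left₀ hc₁0.le hc₁c.le 2
  -- restrict to the annihilator
  set H : Set (ℕ → ZMod m) := {t | ∀ x ∈ M, chi m x t = 1} with hH
  have hHmeas : MeasurableSet H := by
    have : H = ⋂ x ∈ (M : Set (ℕ →₀ ZMod m)), (chi m x) ⁻¹' {1} := by
      ext t
      simp [hH]
    rw [this]
    apply MeasurableSet.biInter (Set.Finite.countable (Set.toFinite _))
    intro x _
    exact (continuous_chi x).measurable (measurableSet_singleton 1)
  have h4 : ENNReal.ofReal (Real.exp (A.card / (4 * C' ^ 2))) * haar m H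
      ≤ ENNReal.ofReal (Real.exp 1) := by
    refine le_trans ?_ h3
    rw [← setLIntegral_const]
    refine le_trans ?_ (setLIntegral_le_lintegral H _)
    apply setLIntegral_mono' hHmeas
    intro t ht
    apply ENNReal.ofReal_le_ofReal
    apply Real.exp_le_exp.mpr
    have h5 : ∑ n ∈ A, chi m n t = (A.card : ℂ) := by
      rw [Finset.sum_congr rfl (fun n hn => ht n (AddSubgroup.subset_closure hn))]
      simp
    rw [h5]
    simp only [Complex.norm_natCast]
    rw [hc, mul_pow, mul_pow, Real.sq_sqrt hAr.le]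
    apply le_of_eq
    field_simp
    norm_num
  have h5 := annihilator M
  rw [← hH, ← hN] at h5
  have h6 : ENNReal.ofReal (Real.exp (A.card / (4 * C' ^ 2))) ≤ ENNReal.ofReal (N * Real.exp 1) := by
    calc ENNReal.ofReal (Real.exp (A.card / (4 * C' ^ 2)))
        = ENNReal.ofReal (Real.exp (A.card / (4 * C' ^ 2))) * 1 := (mul_one _).symm
      _ ≤ ENNReal.ofReal (Real.exp (A.card / (4 * C' ^ 2))) * ((N : ℝ≥0∞) * haar m H) :=
          mul_le_mul_right h5 _
      _ = (N : ℝ≥0∞) * (ENNReal.ofReal (Real.exp (A.card / (4 * C' ^ 2))) * haar m H) := by ring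
      _ ≤ (N : ℝ≥0∞) * ENNReal.ofReal (Real.exp 1) := mul_le_mul_right h4 _
      _ = ENNReal.ofReal (N * Real.exp 1) := by
          rw [ENNReal.ofReal_mul (by positivity), ENNReal.ofReal_natCast]
  have h7 : Real.exp (A.card / (4 * C' ^ 2)) ≤ N * Real.exp 1 := by
    rwa [ENNReal.ofReal_le_ofReal_iff (by positivity)] at h6
  -- logarithms
  have hlogN : Real.log 2 ≤ Real.log N := Real.log_le_log (by norm_num) hNr
  have hlog2 : (1/2 : ℝ) < Real.log 2 := by
    have := Real.log_two_gt_d9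
    linarith
  have hlog2' : Real.log 2 < 1 := by
    have := Real.log_two_lt_d9
    linarith
  have h8 : (A.card : ℝ) / (4 * C' ^ 2) ≤ Real.log N + 1 := by
    have := Real.log_le_log (Real.exp_pos _) h7
    rw [Real.log_exp, Real.log_mul (by positivity) (Real.exp_pos _).ne', Real.log_exp] at this
    exact this
  have h9 : (A.card : ℝ) / (4 * C' ^ 2) ≤ 3 * Real.log N := by linarith
  have h10 : (A.card : ℝ) ≤ 12 * C' ^ 2 * Real.log N := by
    rw [div_le_iff₀ (by positivity)] at h9
    linarith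
  have h11 : (A.card : ℝ) * Real.log 2 ≤ (⌈12 * C' ^ 2⌉₊ : ℝ) * Real.log N := by
    calc (A.card : ℝ) * Real.log 2 ≤ A.card := by nlinarith
      _ ≤ 12 * C' ^ 2 * Real.log N := h10
      _ ≤ (⌈12 * C' ^ 2⌉₊ : ℝ) * Real.log N := by
          apply mul_le_mul_of_nonneg_right (Nat.le_ceil _)
          linarith
  have h12 : Real.log ((2 : ℝ) ^ A.card) ≤ Real.log ((N : ℝ) ^ ⌈12 * C' ^ 2⌉₊) := by
    rw [Real.log_pow, Real.log_pow]
    exact h11
  have h13 : (2 : ℝ) ^ A.card ≤ (N : ℝ) ^ ⌈12 * C' ^ 2⌉₊ :=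
    (Real.log_le_log_iff (by positivity) (by positivity)).mp h12
  exact_mod_cast h13

/-- **Forward direction.** -/
theorem union_of_subgaussian (Λ : Set (ℕ →₀ ZMod m)) (h0 : (0 : ℕ →₀ ZMod m) ∉ Λ)
    (h : Subgaussian m Λ) :
    ∃ (k : ℕ) (Q : Fin k → Set (ℕ →₀ ZMod m)), (∀ i, QI (Q i)) ∧ Λ = ⋃ i, Q i := by
  classical
  obtain ⟨K, hK⟩ := small_of_subgaussian Λ h0 h
  obtain ⟨Q, hQ, hΛ⟩ := Pool.Agent.H337R3.Sid.finite_union
    m.primeFactorsList (fun q hq => Nat.prime_of_mem_primeFactorsList hq) K Λ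
    (by
      rw [Nat.prod_primeFactorsList (NeZero.ne m)]
      intro x _
      ext k
      simp) hK
  exact ⟨_, Q, hQ, hΛ⟩

end Pool.Agent.U517.SG
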