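import Pool.Agent.U517.SG.Riesz
import Pool.Agent.H337R3.Sid2

/-!
The `ψ₂` norm, subgaussian sets of characters, and the two implications.
-/

set_option autoImplicit false

namespace Pool.Agent.U517.SG

open MeasureTheory Finset
open scoped ENNReal ComplexConjugate

/-- `‖f‖_{ψ₂} = inf {c > 0 : ∫ exp(|f|²/c²) dm ≤ e}`. -/
noncomputable def psi2 (m : ℕ) [NeZero m] (f : (ℕ → ZMod m) → ℂ) : ℝ :=
  sInf {c : ℝ | 0 < c ∧
    ∫⁻ t, ENNReal.ofReal (Real.exp (‖f t‖ ^ 2 / c ^ 2)) ∂(haar m) ≤ ENNReal.ofReal (Real.exp 1)}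

/-- subgaussian sets of characters -/
def Subgaussian (m : ℕ) [NeZero m] (Λ : Set (ℕ →₀ ZMod m)) : Prop :=
  ∃ C : ℝ, ∀ (A : Finset (ℕ →₀ ZMod m)) (a : (ℕ →₀ ZMod m) → ℂ), (A : Set (ℕ →₀ ZMod m)) ⊆ Λ →
    psi2 m (fun t => ∑ n ∈ A, a n * chi m n t) ≤ C * Real.sqrt (∑ n ∈ A, ‖a n‖ ^ 2)

variable {m : ℕ} [NeZero m]

lemma psi2_le (f : (ℕ → ZMod m) → ℂ) (c : ℝ) (hc : 0 < c)
    (h : ∫⁻ t, ENNReal.ofReal (Real.exp (‖f t‖ ^ 2 / c ^ 2)) ∂(haar m)
      ≤ ENNReal.ofReal (Real.exp 1)) : psi2 m f ≤ c :=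
  csInf_le ⟨0, fun _ hx => hx.1.le⟩ ⟨hc, h⟩

lemma lint_gauss (β b : ℝ) (hβ : 0 < β) :
    ∫⁻ u : ℝ, ENNReal.ofReal (Real.exp (-β * (u - b) ^ 2)) = ENNReal.ofReal (Real.sqrt (Real.pi / β)) := by
  rw [lintegral_sub_right_eq_self (fun u : ℝ => ENNReal.ofReal (Real.exp (-β * u ^ 2))) b]
  rw [← ofReal_integral_eq_lintegral_ofReal (integrable_exp_neg_mul_sq hβ)
    (Filter.Eventually.of_forall fun u => (Real.exp_pos _).le)]
  rw [integral_gaussian]

/-- From the Laplace transform to the square exponential. -/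
lemma sq_exp (X : (ℕ → ZMod m) → ℝ) (hX : Measurable X) (v : ℝ) (hv : 0 ≤ v)
    (h : ∀ r : ℝ, ∫⁻ t, ENNReal.ofReal (Real.exp (r * X t)) ∂(haar m)
      ≤ ENNReal.ofReal (Real.exp (r ^ 2 * v / 2))) (s : ℝ) (hs : s ^ 2 * v ≤ 1 / 4) :
    ∫⁻ t, ENNReal.ofReal (Real.exp (s ^ 2 * X t ^ 2)) ∂(haar m) ≤ ENNReal.ofReal (Real.exp 1) := by
  have hsq2 : Real.sqrt 2 ^ 2 = 2 := Real.sq_sqrt (by norm_num)
  have e1 : ∀ t, ENNReal.ofReal (Real.sqrt (2 * Real.pi)) * ENNReal.ofReal (Real.exp (s ^ 2 * X t ^ 2))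
      = ∫⁻ u : ℝ, ENNReal.ofReal (Real.exp (-(1/2) * u ^ 2)) *
          ENNReal.ofReal (Real.exp ((Real.sqrt 2 * s * u) * X t)) := by
    intro t
    have h1 := lint_gauss (1/2) (Real.sqrt 2 * s * X t) (by norm_num)
    have h2 : Real.pi / (1/2) = 2 * Real.pi := by ring
    rw [h2] at h1
    rw [← h1, mul_comm, ← lintegral_const_mul' _ _ ENNReal.ofReal_ne_top]
    refine lintegral_congr fun u => ?_
    rw [← ENNReal.ofReal_mul (Real.exp_pos _).le, ← ENNReal.ofReal_mul (Real.exp_pos _).le,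
      ← Real.exp_add, ← Real.exp_add]
    congr 2
    linear_combination (-(1 / 2) * s ^ 2 * X t ^ 2) * hsq2
  have e2 : ENNReal.ofReal (Real.sqrt (2 * Real.pi)) *
      ∫⁻ t, ENNReal.ofReal (Real.exp (s ^ 2 * X t ^ 2)) ∂(haar m)
      ≤ ENNReal.ofReal (Real.sqrt (4 * Real.pi)) := by
    rw [← lintegral_const_mul' _ _ ENNReal.ofReal_ne_top]
    simp_rw [e1]
    rw [lintegral_lintegral_swap]
    swap
    · apply Measurable.aemeasurable
      have : Measurable (fun p : (ℕ → ZMod m) × ℝ => X p.1) := hX.comp measurable_fst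
      fun_prop
    have h3 : ∀ u : ℝ, ∫⁻ t, ENNReal.ofReal (Real.exp (-(1/2) * u ^ 2)) *
          ENNReal.ofReal (Real.exp ((Real.sqrt 2 * s * u) * X t)) ∂(haar m)
          ≤ ENNReal.ofReal (Real.exp (-(1/4) * (u - 0) ^ 2)) := by
      intro u
      rw [lintegral_const_mul' _ _ ENNReal.ofReal_ne_top]
      refine (mul_le_mul_right (h _) _).trans ?_
      rw [← ENNReal.ofReal_mul (Real.exp_pos _).le, ← Real.exp_add]
      apply ENNReal.ofReal_le_ofReal
      apply Real.exp_le_exp.mpr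
      have : (Real.sqrt 2 * s * u) ^ 2 * v / 2 = (s ^ 2 * v) * u ^ 2 := by
        rw [mul_pow, mul_pow, hsq2]; ring
      rw [this]
      nlinarith [sq_nonneg u, mul_le_mul_of_nonneg_right hs (sq_nonneg u)]
    refine (lintegral_mono h3).trans ?_
    rw [lint_gauss (1/4) 0 (by norm_num)]
    apply ENNReal.ofReal_le_ofReal
    apply Real.sqrt_le_sqrt
    apply le_of_eq; ring
  -- conclude
  have h4 : Real.sqrt (4 * Real.pi) ≤ Real.sqrt (2 * Real.pi) * Real.exp 1 := by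
    have h5 : Real.sqrt (4 * Real.pi) = Real.sqrt (2 * Real.pi) * Real.sqrt 2 := by
      rw [← Real.sqrt_mul (by positivity)]
      congr 1; ring
    rw [h5]
    apply mul_le_mul_of_nonneg_left _ (Real.sqrt_nonneg _)
    have h6 : Real.sqrt 2 ≤ 2 := by
      rw [Real.sqrt_le_left (by norm_num)]; norm_num
    have h7 : (2 : ℝ) ≤ Real.exp 1 := by
      have := Real.add_one_le_exp (1 : ℝ)
      linarith
    linarith
  have hpos : (ENNReal.ofReal (Real.sqrt (2 * Real.pi))) ≠ 0 := by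
    rw [Ne, ENNReal.ofReal_eq_zero, not_le]
    positivity
  have h5 := e2.trans (ENNReal.ofReal_le_ofReal h4)
  rw [ENNReal.ofReal_mul (Real.sqrt_nonneg _)] at h5
  exact (ENNReal.mul_le_mul_iff_right hpos ENNReal.ofReal_ne_top).mp h5

lemma measurable_poly (A : Finset (ℕ →₀ ZMod m)) (a : (ℕ →₀ ZMod m) → ℂ) :
    Continuous (fun t => ∑ n ∈ A, a n * chi m n t) := by
  have := fun n => continuous_chi (m := m) n
  fun_prop

/-- A quasi-independent set satisfies the `ψ₂` estimate with constant `3`. -/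
lemma qi_psi (A : Finset (ℕ →₀ ZMod m)) (hA : QI (A : Set (ℕ →₀ ZMod m)))
    (a : (ℕ →₀ ZMod m) → ℂ) (c : ℝ) (hc : 3 * Real.sqrt (∑ n ∈ A, ‖a n‖ ^ 2) < c) :
    ∫⁻ t, ENNReal.ofReal (Real.exp (‖∑ n ∈ A, a n * chi m n t‖ ^ 2 / c ^ 2)) ∂(haar m)
      ≤ ENNReal.ofReal (Real.exp 1) := by
  set v := ∑ n ∈ A, ‖a n‖ ^ 2 with hv
  have hv0 : 0 ≤ v := Finset.sum_nonneg fun n _ => by positivity
  have hc0 : 0 < c := lt_of_le_of_lt (by positivity) hc
  set s := Real.sqrt 2 / c with hs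
  have hs2 : s ^ 2 = 2 / c ^ 2 := by
    rw [hs, div_pow, Real.sq_sqrt (by norm_num)]
  have hc9 : 9 * v ≤ c ^ 2 := by
    have h1 : (3 * Real.sqrt v) ^ 2 ≤ c ^ 2 := by
      apply pow_le_pow_left₀ (by positivity) hc.le
    rw [mul_pow, Real.sq_sqrt hv0] at h1
    linarith
  have hsv : s ^ 2 * v ≤ 1 / 4 := by
    rw [hs2, div_mul_eq_mul_div, div_le_div_iff₀ (by positivity) (by norm_num)]
    linarith
  have m1 : Measurable (fun t => (∑ n ∈ A, a n * chi m n t).re) :=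
    (Complex.continuous_re.comp (measurable_poly A a)).measurable
  have m2 : Measurable (fun t => (∑ n ∈ A, a n * chi m n t).im) :=
    (Complex.continuous_im.comp (measurable_poly A a)).measurable
  have b1 := sq_exp (fun t => (∑ n ∈ A, a n * chi m n t).re) m1 v hv0
    (fun r => laplace_l A hA a r) s hsv
  have b2 := sq_exp (fun t => (∑ n ∈ A, a n * chi m n t).im) m2 v hv0 (by
    intro r
    have h := laplace_l A hA (fun n => (-Complex.I) * a n) r
    have e1 : ∀ t : ℕ → ZMod m, (∑ n ∈ A, ((-Complex.I) * a n) * chi m n t).re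
        = (∑ n ∈ A, a n * chi m n t).im := by
      intro t
      have : ∑ n ∈ A, ((-Complex.I) * a n) * chi m n t
          = (-Complex.I) * ∑ n ∈ A, a n * chi m n t := by
        rw [Finset.mul_sum]
        refine Finset.sum_congr rfl fun n _ => by ring
      rw [this]
      simp
    have e2 : ∑ n ∈ A, ‖(-Complex.I) * a n‖ ^ 2 = v := by
      rw [hv]
      refine Finset.sum_congr rfl fun n _ => ?_
      simp
    simp only [e1] at h
    rw [e2] at h
    exact h) s hsv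
  -- convexity
  have hpt : ∀ t : ℕ → ZMod m, ENNReal.ofReal (Real.exp (‖∑ n ∈ A, a n * chi m n t‖ ^ 2 / c ^ 2))
      ≤ ENNReal.ofReal (1/2) * (ENNReal.ofReal (Real.exp (s ^ 2 * (∑ n ∈ A, a n * chi m n t).re ^ 2))
        + ENNReal.ofReal (Real.exp (s ^ 2 * (∑ n ∈ A, a n * chi m n t).im ^ 2))) := by
    intro t
    set z := ∑ n ∈ A, a n * chi m n t
    rw [← ENNReal.ofReal_add (Real.exp_pos _).le (Real.exp_pos _).le,
      ← ENNReal.ofReal_mul (by norm_num)]
    apply ENNReal.ofReal_le_ofReal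
    have h1 : ‖z‖ ^ 2 / c ^ 2 = (1/2) * (s ^ 2 * z.re ^ 2) + (1/2) * (s ^ 2 * z.im ^ 2) := by
      rw [← Complex.normSq_eq_norm_sq, Complex.normSq_apply, hs2]
      field_simp
    rw [h1]
    have h2 := convexOn_exp.2 (Set.mem_univ (s ^ 2 * z.re ^ 2)) (Set.mem_univ (s ^ 2 * z.im ^ 2))
      (by norm_num : (0:ℝ) ≤ 1/2) (by norm_num : (0:ℝ) ≤ 1/2) (by norm_num)
    simp only [smul_eq_mul] at h2
    linarith
  refine (lintegral_mono hpt).trans ?_
  rw [lintegral_const_mul' _ _ ENNReal.ofReal_ne_top, lintegral_add_left]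
  · calc _ ≤ ENNReal.ofReal (1/2) * (ENNReal.ofReal (Real.exp 1) + ENNReal.ofReal (Real.exp 1)) :=
          mul_le_mul_right (add_le_add b1 b2) _
      _ = ENNReal.ofReal (Real.exp 1) := by
          rw [← ENNReal.ofReal_add (Real.exp_pos _).le (Real.exp_pos _).le,
            ← ENNReal.ofReal_mul (by norm_num)]
          congr 1; ring
  · fun_prop

/-- **Backward direction.** -/
theorem subgaussian_of_union (Λ : Set (ℕ →₀ ZMod m)) (k : ℕ) (Q : Fin k → Set (ℕ →₀ ZMod m))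
    (hQ : ∀ i, QI (Q i)) (hΛ : Λ = ⋃ i, Q i) : Subgaussian m Λ := by
  classical
  refine ⟨3 * k, fun A a hA => ?_⟩
  rcases Nat.eq_zero_or_pos k with hk | hk
  · subst hk
    have hA0 : A = ∅ := by
      rw [← Finset.coe_eq_empty]
      apply Set.eq_empty_of_subset_empty
      refine hA.trans ?_
      rw [hΛ]; simp
    subst hA0
    simp only [Finset.sum_empty, Real.sqrt_zero, mul_zero]
    apply le_of_forall_pos_le_add
    intro ε hε
    rw [zero_add]
    apply psi2_le _ _ hε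
    simp
  -- colour
  have hcol : ∀ n : ℕ →₀ ZMod m, ∃ i : Fin k, n ∈ A → n ∈ Q i := by
    intro n
    by_cases h : n ∈ A
    · have := hA (Finset.mem_coe.mpr h)
      rw [hΛ, Set.mem_iUnion] at this
      obtain ⟨i, hi⟩ := this
      exact ⟨i, fun _ => hi⟩
    · exact ⟨⟨0, hk⟩, fun h' => absurd h' h⟩
  choose col hcol using hcol
  let B : Fin k → Finset (ℕ →₀ ZMod m) := fun i => A.filter (fun n => col n = i)
  have hB : ∀ i, QI (B i : Set (ℕ →₀ ZMod m)) := by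
    intro i E hE ξ hξ hrel
    refine hQ i E (fun x hx => ?_) ξ hξ hrel
    have := Finset.mem_filter.mp (Finset.mem_coe.mp (hE hx))
    rw [← this.2]
    exact hcol x this.1
  set σ := Real.sqrt (∑ n ∈ A, ‖a n‖ ^ 2) with hσ
  have hσi : ∀ i, Real.sqrt (∑ n ∈ B i, ‖a n‖ ^ 2) ≤ σ := by
    intro i
    apply Real.sqrt_le_sqrt
    exact Finset.sum_le_sum_of_subset_of_nonneg (Finset.filter_subset _ _)
      (fun n _ _ => by positivity)
  have hσ0 : 0 ≤ σ := Real.sqrt_nonneg _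
  have hk0 : (0 : ℝ) < k := by exact_mod_cast hk
  apply le_of_forall_pos_le_add
  intro ε hε
  have hc0 : 0 < 3 * k * σ + ε := by positivity
  apply psi2_le _ _ hc0
  set c := 3 * k * σ + ε with hc
  have hdec : ∀ t : ℕ → ZMod m, ∑ n ∈ A, a n * chi m n t
      = ∑ i, ∑ n ∈ B i, a n * chi m n t := by
    intro t
    exact (Finset.sum_fiberwise A col (fun n => a n * chi m n t)).symm
  have hck : ∀ i, 3 * Real.sqrt (∑ n ∈ B i, ‖a n‖ ^ 2) < c / k := by
    intro i
    rw [lt_div_iff₀ hk0]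
    have := hσi i
    nlinarith [this, hk0]
  have hpt : ∀ t : ℕ → ZMod m, ENNReal.ofReal (Real.exp (‖∑ n ∈ A, a n * chi m n t‖ ^ 2 / c ^ 2))
      ≤ ENNReal.ofReal (1/k) * ∑ i, ENNReal.ofReal
        (Real.exp (‖∑ n ∈ B i, a n * chi m n t‖ ^ 2 / (c / k) ^ 2)) := by
    intro t
    rw [← ENNReal.ofReal_sum_of_nonneg (fun i _ => (Real.exp_pos _).le),
      ← ENNReal.ofReal_mul (by positivity)]
    apply ENNReal.ofReal_le_ofReal
    have h1 : ‖∑ n ∈ A, a n * chi m n t‖ ^ 2 ≤ k * ∑ i, ‖∑ n ∈ B i, a n * chi m n t‖ ^ 2 := by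
      rw [hdec]
      calc _ ≤ (∑ i, ‖∑ n ∈ B i, a n * chi m n t‖) ^ 2 :=
            pow_le_pow_left₀ (norm_nonneg _) (norm_sum_le _ _) 2
        _ ≤ _ := by
            have := sq_sum_le_card_mul_sum_sq (s := (Finset.univ : Finset (Fin k)))
              (f := fun i => ‖∑ n ∈ B i, a n * chi m n t‖)
            simpa using this
    have h2 : ‖∑ n ∈ A, a n * chi m n t‖ ^ 2 / c ^ 2
        ≤ ∑ i : Fin k, (1/(k:ℝ)) • (‖∑ n ∈ B i, a n * chi m n t‖ ^ 2 / (c / k) ^ 2) := by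
      have h3 : ∑ i : Fin k, (1/(k:ℝ)) • (‖∑ n ∈ B i, a n * chi m n t‖ ^ 2 / (c / k) ^ 2)
          = (k * ∑ i, ‖∑ n ∈ B i, a n * chi m n t‖ ^ 2) / c ^ 2 := by
        rw [← Finset.smul_sum, ← Finset.sum_div, smul_eq_mul]
        field_simp
      rw [h3]
      exact div_le_div_of_nonneg_right h1 (by positivity)
    refine (Real.exp_le_exp.mpr h2).trans ?_
    have h4 := convexOn_exp.map_sum_le (t := (Finset.univ : Finset (Fin k)))
      (w := fun _ => 1/(k:ℝ)) (p := fun i => ‖∑ n ∈ B i, a n * chi m n t‖ ^ 2 / (c / k) ^ 2)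
      (fun i _ => by positivity) (by simp; field_simp) (fun i _ => Set.mem_univ _)
    refine h4.trans (le_of_eq ?_)
    rw [Finset.mul_sum]
    rfl
  refine (lintegral_mono hpt).trans ?_
  rw [lintegral_const_mul' _ _ ENNReal.ofReal_ne_top, lintegral_finsetSum]
  · calc _ ≤ ENNReal.ofReal (1/k) * ∑ _i : Fin k, ENNReal.ofReal (Real.exp 1) := by
          apply mul_le_mul_right
          exact Finset.sum_le_sum fun i _ => qi_psi (B i) (hB i) a (c / k) (hck i)
      _ = ENNReal.ofReal (Real.exp 1) := by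
          rw [← ENNReal.ofReal_sum_of_nonneg (fun i _ => (Real.exp_pos _).le),
            ← ENNReal.ofReal_mul (by positivity)]
          congr 1
          rw [Finset.sum_const, Finset.card_univ, Fintype.card_fin, nsmul_eq_mul]
          field_simp
  · intro i _
    have := (measurable_poly (B i) a).measurable
    fun_prop

end Pool.Agent.U517.SG
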