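import Pool.Agent.U517.SG.Basic

/-!
Riesz products: the Laplace transform of a trigonometric polynomial whose frequencies form a
quasi-independent set.
-/

set_option autoImplicit false

namespace Pool.Agent.U517.SG

open MeasureTheory Finset
open scoped ENNReal ComplexConjugate

variable {m : ℕ} [NeZero m]

/-- Quasi-independent sets. -/
def QI (Λ : Set (ℕ →₀ ZMod m)) : Prop :=
  ∀ A : Finset (ℕ →₀ ZMod m), (A : Set (ℕ →₀ ZMod m)) ⊆ Λ → ∀ ξ : (ℕ →₀ ZMod m) → ℤ,
    (∀ x ∈ A, ξ x = -1 ∨ ξ x = 0 ∨ ξ x = 1) → ∑ x ∈ A, ξ x • x = 0 → ∀ x ∈ A, ξ x = 0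

/-- coefficients of the three terms of a factor of the Riesz product -/
noncomputable def cf (a : (ℕ →₀ ZMod m) → ℂ) (n : ℕ →₀ ZMod m) (e : ℤ) : ℂ :=
  if e = 0 then (Real.cosh ‖a n‖ : ℂ)
  else if e = 1 then (Real.sinh ‖a n‖ / 2 : ℝ) * (a n / ‖a n‖)
  else (Real.sinh ‖a n‖ / 2 : ℝ) * conj (a n / ‖a n‖)

/-- one factor of the Riesz product -/
noncomputable def fac (a : (ℕ →₀ ZMod m) → ℂ) (n : ℕ →₀ ZMod m) (t : ℕ → ZMod m) : ℝ :=
  Real.cosh ‖a n‖ + (a n / ‖a n‖ * chi m n t).re * Real.sinh ‖a n‖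

lemma exp_le_fac (a : (ℕ →₀ ZMod m) → ℂ) (n : ℕ →₀ ZMod m) (t : ℕ → ZMod m) :
    Real.exp ((a n * chi m n t).re) ≤ fac a n t := by
  unfold fac
  by_cases h : ‖a n‖ = 0
  · have h0 : a n = 0 := norm_eq_zero.mp h
    simp [h0]
  · have h1 : (a n * chi m n t).re = (a n / ‖a n‖ * chi m n t).re * ‖a n‖ := by
      rw [← Complex.re_mul_ofReal]
      congr 1
      have : (‖a n‖ : ℂ) ≠ 0 := by exact_mod_cast h
      field_simp
    rw [h1]
    apply Real.exp_mul_le_cosh_add_mul_sinh
    refine (Complex.abs_re_le_norm _).trans ?_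
    rw [norm_mul, norm_chi, norm_div, Complex.norm_real, norm_norm, div_self h, mul_one]

lemma fac_eq (a : (ℕ →₀ ZMod m) → ℂ) (n : ℕ →₀ ZMod m) (t : ℕ → ZMod m) :
    (fac a n t : ℂ) = ∑ e ∈ ({-1, 0, 1} : Finset ℤ), cf a n e * chi m (e • n) t := by
  rw [Finset.sum_insert (by decide), Finset.sum_insert (by decide), Finset.sum_singleton]
  unfold fac cf
  simp only [zero_smul, one_smul, neg_smul, chi_zero, chi_neg]
  have h := Complex.add_conj (a n / ‖a n‖ * chi m n t)
  rw [map_mul] at h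
  simp only [if_true, one_ne_zero, if_false, zero_ne_one, mul_one,
    show ¬ ((-1 : ℤ) = 0) by decide, show ¬ ((-1 : ℤ) = 1) by decide]
  push_cast at h ⊢
  linear_combination (-(Complex.sinh ‖a n‖ / 2)) * h

/-- The integral of the Riesz product. -/
lemma riesz (A : Finset (ℕ →₀ ZMod m)) (hA : QI (A : Set (ℕ →₀ ZMod m)))
    (a : (ℕ →₀ ZMod m) → ℂ) :
    ∫ t, ∏ n ∈ A, fac a n t ∂(haar m) = ∏ n ∈ A, Real.cosh ‖a n‖ := by
  classical
  have key : ∫ t, ((∏ n ∈ A, fac a n t : ℝ) : ℂ) ∂(haar m) = ((∏ n ∈ A, Real.cosh ‖a n‖ : ℝ) : ℂ) := by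
    have h1 : ∀ t : ℕ → ZMod m, ((∏ n ∈ A, fac a n t : ℝ) : ℂ)
        = ∑ p ∈ A.pi (fun _ => ({-1, 0, 1} : Finset ℤ)),
          (∏ x ∈ A.attach, cf a x.1 (p x.1 x.2)) * chi m (∑ x ∈ A.attach, p x.1 x.2 • x.1) t := by
      intro t
      rw [Complex.ofReal_prod]
      simp_rw [fac_eq]
      rw [Finset.prod_sum]
      refine Finset.sum_congr rfl fun p _ => ?_
      rw [Finset.prod_mul_distrib, chi_sum]
    simp_rw [h1]
    rw [integral_finsetSum]
    swap
    · intro p _
      exact integrable_of_continuous _ (continuous_const.mul (continuous_chi _))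
    simp_rw [integral_const_mul]
    rw [Finset.sum_eq_single (fun _ _ => 0)]
    · simp only [zero_smul, Finset.sum_const_zero, chi_zero]
      rw [integral_const]
      simp only [probReal_univ, one_smul, mul_one]
      rw [Complex.ofReal_prod, ← Finset.prod_attach A]
      refine Finset.prod_congr rfl fun x _ => ?_
      simp [cf]
    · intro p hp hp0
      rw [integral_chi, mul_zero]
      intro hsum
      apply hp0
      -- a relation
      let ξ : (ℕ →₀ ZMod m) → ℤ := fun x => if h : x ∈ A then p x h else 0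
      have hξ : ∀ x ∈ A, ξ x = -1 ∨ ξ x = 0 ∨ ξ x = 1 := by
        intro x hx
        have : ξ x = p x hx := dif_pos hx
        rw [this]
        have := Finset.mem_pi.mp hp x hx
        simpa using this
      have hrel : ∑ x ∈ A, ξ x • x = 0 := by
        rw [← hsum, ← Finset.sum_attach A]
        refine Finset.sum_congr rfl fun x _ => ?_
        have : ξ x.1 = p x.1 x.2 := dif_pos x.2
        rw [this]
      have := hA A (subset_refl _) ξ hξ hrel
      funext x hx
      have h2 : ξ x = p x hx := dif_pos hx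
      rw [← h2]
      exact this x hx
    · intro h
      exfalso
      apply h
      rw [Finset.mem_pi]
      intro x _
      simp
  rw [integral_complex_ofReal] at key
  exact_mod_cast key

lemma continuous_fac (a : (ℕ →₀ ZMod m) → ℂ) (n : ℕ →₀ ZMod m) : Continuous (fac a n) := by
  unfold fac
  have := continuous_chi (m := m) n
  fun_prop

/-- The Laplace transform bound. -/
lemma laplace (A : Finset (ℕ →₀ ZMod m)) (hA : QI (A : Set (ℕ →₀ ZMod m)))
    (a : (ℕ →₀ ZMod m) → ℂ) :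
    ∫ t, Real.exp ((∑ n ∈ A, a n * chi m n t).re) ∂(haar m)
      ≤ Real.exp ((∑ n ∈ A, ‖a n‖ ^ 2) / 2) := by
  have h1 : ∫ t, Real.exp ((∑ n ∈ A, a n * chi m n t).re) ∂(haar m)
      ≤ ∫ t, ∏ n ∈ A, fac a n t ∂(haar m) := by
    apply integral_mono
    · apply integrable_of_continuous
      have := fun n => continuous_chi (m := m) n
      fun_prop
    · apply integrable_of_continuous
      have := fun n => continuous_fac (m := m) a n
      fun_prop
    · intro t
      simp only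
      rw [Complex.re_sum, Real.exp_sum]
      exact Finset.prod_le_prod (fun n _ => (Real.exp_pos _).le) (fun n _ => exp_le_fac a n t)
  refine h1.trans ?_
  rw [riesz A hA a]
  rw [Finset.sum_div, Real.exp_sum]
  exact Finset.prod_le_prod (fun n _ => (Real.cosh_pos _).le)
    (fun n _ => Real.cosh_le_exp_half_sq _)

lemma laplace_l (A : Finset (ℕ →₀ ZMod m)) (hA : QI (A : Set (ℕ →₀ ZMod m)))
    (a : (ℕ →₀ ZMod m) → ℂ) (r : ℝ) :
    ∫⁻ t, ENNReal.ofReal (Real.exp (r * (∑ n ∈ A, a n * chi m n t).re)) ∂(haar m)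
      ≤ ENNReal.ofReal (Real.exp (r ^ 2 * (∑ n ∈ A, ‖a n‖ ^ 2) / 2)) := by
  have h := laplace A hA (fun n => r * a n)
  have e1 : ∀ t : ℕ → ZMod m, (∑ n ∈ A, (r * a n) * chi m n t).re
      = r * (∑ n ∈ A, a n * chi m n t).re := by
    intro t
    rw [← Complex.re_ofReal_mul, Finset.mul_sum]
    congr 1
    refine Finset.sum_congr rfl fun n _ => by ring
  have e2 : ∑ n ∈ A, ‖(r : ℂ) * a n‖ ^ 2 = r ^ 2 * ∑ n ∈ A, ‖a n‖ ^ 2 := by
    rw [Finset.mul_sum]
    refine Finset.sum_congr rfl fun n _ => ?_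
    rw [norm_mul, mul_pow, Complex.norm_real, Real.norm_eq_abs, sq_abs]
  simp_rw [e1] at h
  rw [e2] at h
  rw [← ofReal_integral_eq_lintegral_ofReal]
  · exact ENNReal.ofReal_le_ofReal h
  · apply integrable_of_continuous
    have := fun n => continuous_chi (m := m) n
    fun_prop
  · exact Filter.Eventually.of_forall fun t => (Real.exp_pos _).le

end Pool.Agent.U517.SG
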